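import Pool.Agent.Helper14.GS.StD

/-!
# Project GS (MP_627c93_nt): module D3 (degree of the Feldman polynomials)
-/

set_option autoImplicit false

namespace Pool.Agent.Helper16.GS

open Pool.Agent.Helper14.GS Polynomial

theorem D3_fac (i : ℕ) : (C (((i : ℝ) + 1)⁻¹) * (X - C (i : ℝ)) : ℝ[X]) ≠ 0 ∧
    (C (((i : ℝ) + 1)⁻¹) * (X - C (i : ℝ)) : ℝ[X]).natDegree = 1 := by
  have ha : ((i : ℝ) + 1)⁻¹ ≠ 0 := by positivity
  constructor
  · exact mul_ne_zero (C_ne_zero.2 ha) (X_sub_C_ne_zero _)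
  · rw [natDegree_C_mul ha, natDegree_X_sub_C]

theorem D3_bin (j : ℕ) : binP j ≠ 0 ∧ (binP j).natDegree = j := by
  unfold binP
  constructor
  · exact Finset.prod_ne_zero_iff.2 fun i _ => (D3_fac i).1
  · rw [natDegree_prod _ _ fun i _ => (D3_fac i).1, Finset.sum_congr rfl fun i _ => (D3_fac i).2]
    simp

/-- **D3.** -/
theorem D3 : StD3 := by
  intro h r _
  obtain ⟨h1, h2⟩ := D3_bin h
  obtain ⟨h3, h4⟩ := D3_bin (r % h)
  unfold felP
  refine ⟨?_, mul_ne_zero (pow_ne_zero _ h1) h3⟩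
  rw [natDegree_mul (pow_ne_zero _ h1) h3, natDegree_pow, h2, h4]
  exact Nat.div_add_mod' r h

end Pool.Agent.Helper16.GS
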