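import Pool.Agent.Helper79.GS.St2

/-!
# Project GS (MP_c2d095_lc), module KRV: reversible placements are ko captures
-/

set_option autoImplicit false

namespace Pool.Agent.Helper16.GS

open Pool.Agent.Helper79.GS Pool.Agent.Helper19.SK

private theorem count {V : Type} [Finite V] {G : SimpleGraph V} {c : Bool} {P Q : Pos V} {e : V}
    (hA : Alive G P) (he : P e = none) (hQ : Q = play G P c e) (hne : Q ≠ P)
    (hsub : ∀ v, P v = some c → Q v = some c) :
    (stones Q c).ncard = (stones P c).ncard + 1 := by
  have h1 : (stones Q c).ncard ≤ (stones P c).ncard + 1 := by rw [hQ]; exact own_le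
  have h2 : stones P c ⊆ stones Q c := fun v hv => hsub v hv
  have h3 : (stones P c).ncard ≤ (stones Q c).ncard := Set.ncard_le_ncard h2 (Set.toFinite _)
  by_contra hcon
  have h4 : stones P c = stones Q c :=
    Set.eq_of_subset_of_ncard_le h2 (by omega) (Set.toFinite _)
  have h5 : Q e ≠ some c := by
    intro h
    have h6 : e ∈ stones P c := by rw [h4]; exact h
    have h7 : P e = some c := h6
    rw [he] at h7
    cases h7
  apply hne
  funext v
  by_cases h0 : P v = none
  · by_cases hv : v = e
    · subst hv
      rw [h0]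
      by_contra h6
      obtain ⟨d, hd⟩ := Option.ne_none_iff_exists'.1 h6
      by_cases hdc : d = c
      · subst hdc
        exact h5 hd
      · rw [bool_cases hdc, hQ] at hd
        have h7 := opp_of hd
        rw [he] at h7
        cases h7
    · rw [h0, hQ]
      exact none_of h0 hv
  · obtain ⟨d, hd⟩ := Option.ne_none_iff_exists'.1 h0
    by_cases hdc : d = c
    · subst hdc
      rw [hd, hsub v hd]
    · rw [bool_cases hdc] at hd
      rw [hd]
      have h6 : Q v ≠ none := by
        intro h
        apply h5
        rw [hQ] at h ⊢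
        exact own_stay hA he hd h (Or.inl rfl)
      obtain ⟨d', hd'⟩ := Option.ne_none_iff_exists'.1 h6
      by_cases hdc' : d' = c
      · subst hdc'
        rw [hQ] at hd'
        rcases own_of hd' with h7 | h7
        · exact absurd h7 (ne_e he hd)
        · rw [hd] at h7
          exact absurd h7 (some_bne _)
      · rw [hd', bool_cases hdc']

theorem hKRV : StKRV := by
  intro V _ G c P Q h
  obtain ⟨⟨e, he, hQ, hne⟩, ⟨u, hu, hP, hne'⟩⟩ := h
  have hAP : Alive G P := by rw [hP]; exact alive_play _ _ _
  have hAQ : Alive G Q := by rw [hQ]; exact alive_play _ _ _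
  have hsubP : ∀ v, P v = some c → Q v = some c := by
    intro v hv
    have h1 : play G Q (!c) u v = some (!!c) := by rw [← hP, Bool.not_not]; exact hv
    have h2 := opp_of h1
    rw [Bool.not_not] at h2
    exact h2
  have hsubQ : ∀ v, Q v = some (!c) → P v = some (!c) := by
    intro v hv
    rw [hQ] at hv
    exact opp_of hv
  have hA := count hAP he hQ hne hsubP
  have hB := count hAQ hu hP hne' hsubQ
  obtain ⟨u', hu1, hu2, hu3⟩ := opp_eq (G := G) (P := P) (c := c) (e := e) he
    (by rw [← hQ]; exact hB.symm)
  rw [← hQ] at hu2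
  have hPu : P u = some (!c) := by
    have h1 := own_eq (G := G) (P := Q) (c := !c) (e := u) (by rw [← hP]; exact hB) (v := u)
      (Or.inl rfl)
    rw [← hP] at h1
    exact h1
  have huu : u = u' := by
    by_contra hcon
    have h1 := hu3 u hPu hcon
    rw [← hQ, hu] at h1
    cases h1
  subst huu
  have hQe : Q e = some c := by
    have h1 := own_eq (G := G) (P := P) (c := c) (e := e) (by rw [← hQ]; exact hA) (v := e)
      (Or.inl rfl)
    rw [← hQ] at h1
    exact h1
  obtain ⟨e', he1, he2, he3⟩ := opp_eq (G := G) (P := Q) (c := !c) (e := u) hu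
    (by rw [← hP, Bool.not_not]; exact hA.symm)
  have hee : e = e' := by
    by_contra hcon
    have h1 := he3 e (by rw [Bool.not_not]; exact hQe) hcon
    rw [← hP, he] at h1
    cases h1
  subst hee
  refine ⟨e, ?_, hQ⟩
  refine ko_of hAP he ?_ hPu (by rw [← hQ]; exact hu) hu3
  intro w hw
  rcases capt_nbr hu he1 he2 hw with (h1 | h1) | ⟨h1, h2⟩
  · rw [h1]
    exact hPu
  · exact hsubQ w h1
  · exfalso
    have h3 := he3 w h1 hw.ne'
    rw [h2] at h3
    cases h3

end Pool.Agent.Helper16.GS
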